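import Mathlib

/-!
# Two-connected graphs of large edge-connectivity without an `(s,t)`-triple

For every `L` we describe a simple graph that is 2-connected and `L`-edge-connected and has no
`(s,t)`-triple. Let `n = L + 2`. There are two hubs, three middle vertices `a₀, a₁, a₂` and, for
every middle vertex `aᵢ` and every hub `b`, `n` pieces. Each piece is a clique on `n` vertices, all
of them joined to the hub `b`, and exactly one of them joined to `aᵢ` by a single edge.

If `s, t` lie outside the group of `aᵢ`, then in an `(s,t)`-triple the vertex `aᵢ` has a smaller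
neighbour `w` in the tree `O`, lying in some piece. The smallest vertex of this piece needs a
smaller neighbour in `O`, which must be the hub `b`; so `b` is below the piece. The largest vertex
of the piece needs a larger neighbour in `I`, which must be `aᵢ`, along the same edge `w aᵢ`.
-/

set_option autoImplicit false

namespace Pool.Agent.Results.MP_bdb63f_co.NoGoodOrientation

open SimpleGraph

universe u

/-- A graph is 2-connected if it has at least three vertices, is connected, and has no cut
vertex. -/
def TwoConnected {V : Type u} [Fintype V] (G : SimpleGraph V) : Prop :=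
  3 ≤ Fintype.card V ∧ G.Connected ∧ ∀ v : V, (G.induce {v}ᶜ).Connected

/-- `G` has an `(s,t)`-triple: a total order on the vertices and two spanning trees `I`, `O` of `G`
without common edge such that every vertex other than `t` is joined in `I` to a larger vertex and
every vertex other than `s` is joined in `O` to a smaller vertex. -/
def HasTriple {V : Type u} (G : SimpleGraph V) (s t : V) : Prop :=
  ∃ (_ : LinearOrder V) (I O : SimpleGraph V),
    I ≤ G ∧ O ≤ G ∧ I.IsTree ∧ O.IsTree ∧ Disjoint I.edgeSet O.edgeSet ∧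
    (∀ v, v ≠ t → ∃ w, I.Adj v w ∧ v < w) ∧ (∀ v, v ≠ s → ∃ w, O.Adj v w ∧ w < v)

/-- The vertices: two hubs, three middle vertices, and the piece vertices. -/
inductive Vert (n : ℕ) : Type
  | hub (h : Fin 2) : Vert n
  | mid (i : Fin 3) : Vert n
  | pc (i : Fin 3) (h : Fin 2) (j k : Fin n) : Vert n
  deriving DecidableEq

open Vert

/-- An explicit equivalence with a finite sum type. -/
def equivSum (n : ℕ) : Vert n ≃ (Fin 2 ⊕ Fin 3) ⊕ (Fin 3 × Fin 2 × Fin n × Fin n) where
  toFun
    | hub h => .inl (.inl h)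
    | mid i => .inl (.inr i)
    | pc i h j k => .inr (i, h, j, k)
  invFun
    | .inl (.inl h) => hub h
    | .inl (.inr i) => mid i
    | .inr (i, h, j, k) => pc i h j k
  left_inv x := by cases x <;> rfl
  right_inv x := by rcases x with (h | i) | ⟨i, h, j, k⟩ <;> rfl

instance (n : ℕ) : Fintype (Vert n) := Fintype.ofEquiv _ (equivSum n).symm

/-- The adjacency relation. -/
def adj {n : ℕ} : Vert n → Vert n → Prop
  | hub _, hub _ => False
  | hub _, mid _ => False
  | mid _, hub _ => False
  | mid _, mid _ => False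
  | hub h, pc _ h' _ _ => h = h'
  | pc _ h' _ _, hub h => h = h'
  | mid i, pc i' _ _ k => i = i' ∧ (k : ℕ) = 0
  | pc i' _ _ k, mid i => i = i' ∧ (k : ℕ) = 0
  | pc i h j k, pc i' h' j' k' => i = i' ∧ h = h' ∧ j = j' ∧ k ≠ k'

/-- The graph. -/
def gr (n : ℕ) : SimpleGraph (Vert n) where
  Adj := adj
  symm := ⟨by
    intro x y h
    cases x <;> cases y <;> simp only [adj] at h ⊢ <;> try exact h
    obtain ⟨h1, h2, h3, h4⟩ := h
    exact ⟨h1.symm, h2.symm, h3.symm, h4.symm⟩⟩
  loopless := ⟨by
    intro x h
    cases x <;> simp [adj] at h⟩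

theorem gr_adj {n : ℕ} (x y : Vert n) : (gr n).Adj x y ↔ adj x y := Iff.rfl

theorem fin2_other : ∀ h h' : Fin 2, h' ≠ h → h' = 1 - h := by decide

theorem fin2_ne : ∀ h : Fin 2, (1 - h : Fin 2) ≠ h := by decide

theorem fin3_avoid : ∀ a b : Fin 3, ∃ i : Fin 3, i ≠ a ∧ i ≠ b := by decide

/-- Pigeonhole: if fewer than `n` edges are deleted, one of `n` pairwise disjoint edge families
survives. -/
theorem survive {V : Type u} {n : ℕ} {F : Set (Sym2 V)} (hF : F.encard < n)
    (E : Fin n → Set (Sym2 V)) (hE : ∀ l l', l ≠ l' → Disjoint (E l) (E l')) :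
    ∃ l, Disjoint (E l) F := by
  by_contra hcon
  push Not at hcon
  have : ∀ l, ∃ e, e ∈ E l ∧ e ∈ F := fun l => Set.not_disjoint_iff.1 (hcon l)
  choose e he heF using this
  have hinj : Function.Injective e := by
    intro l l' h
    by_contra hne
    exact Set.disjoint_left.1 (hE l l' hne) (he l) (h ▸ he l')
  have h1 : (Set.range e).encard ≤ F.encard :=
    Set.encard_le_encard (by rintro _ ⟨l, rfl⟩; exact heF l)
  have h2 : (Set.range e).encard = n := by
    rw [← Set.image_univ, hinj.encard_image, Set.encard_univ]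
    simp
  rw [h2] at h1
  exact absurd hF (not_lt.2 h1)

/-- A piece vertex stays connected to its hub. -/
theorem reach_hub {n : ℕ} {F : Set (Sym2 (Vert n))} (hF : F.encard < n)
    (i : Fin 3) (h : Fin 2) (j k : Fin n) :
    ((gr n).deleteEdges F).Reachable (pc i h j k) (hub h) := by
  classical
  let E : Fin n → Set (Sym2 (Vert n)) := fun l =>
    if l = k then {s(pc i h j k, hub h)}
    else {s(pc i h j k, pc i h j l), s(pc i h j l, hub h)}
  obtain ⟨l, hl⟩ := survive hF E (by
    intro l l' hne
    rw [Set.disjoint_left]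
    intro e h1 h2
    simp only [E] at h1 h2
    split_ifs at h1 h2 with c1 c2 c2
    · exact hne (c1.trans c2.symm)
    · simp only [Set.mem_singleton_iff, Set.mem_insert_iff] at h1 h2
      subst h1
      rcases h2 with h2 | h2 <;> simp at h2
      exact c2 h2.symm
    · simp only [Set.mem_singleton_iff, Set.mem_insert_iff] at h1 h2
      subst h2
      rcases h1 with h1 | h1 <;> simp at h1
      exact c1 h1.symm
    · simp only [Set.mem_singleton_iff, Set.mem_insert_iff] at h1 h2
      rcases h1 with h1 | h1 <;> subst h1 <;> rcases h2 with h2 | h2 <;>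
        simp at h2
      · rcases h2 with h2 | h2
        · exact hne h2
        · exact c2 h2.1.symm
      · exact hne h2)
  rw [Set.disjoint_left] at hl
  simp only [E] at hl
  split_ifs at hl with c
  · apply Adj.reachable
    rw [deleteEdges_adj]
    exact ⟨by simp [gr_adj, adj], hl rfl⟩
  · have a1 : ((gr n).deleteEdges F).Adj (pc i h j k) (pc i h j l) := by
      rw [deleteEdges_adj]
      exact ⟨by simp only [gr_adj, adj, true_and]; exact fun hh => c hh.symm,
        hl (Set.mem_insert _ _)⟩
    have a2 : ((gr n).deleteEdges F).Adj (pc i h j l) (hub h) := by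
      rw [deleteEdges_adj]
      exact ⟨by simp [gr_adj, adj], hl (Set.mem_insert_of_mem _ rfl)⟩
    exact a1.reachable.trans a2.reachable

/-- A middle vertex stays connected to both hubs. -/
theorem reach_mid {n : ℕ} (hn : 0 < n) {F : Set (Sym2 (Vert n))} (hF : F.encard < n)
    (i : Fin 3) (h : Fin 2) :
    ((gr n).deleteEdges F).Reachable (mid i) (hub h) := by
  classical
  let E : Fin n → Set (Sym2 (Vert n)) := fun l => {s(mid i, pc i h l ⟨0, hn⟩)}
  obtain ⟨l, hl⟩ := survive hF E (by
    intro l l' hne
    rw [Set.disjoint_left]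
    intro e h1 h2
    simp only [E, Set.mem_singleton_iff] at h1 h2
    subst h1
    simp at h2
    exact hne h2)
  rw [Set.disjoint_left] at hl
  have a1 : ((gr n).deleteEdges F).Adj (mid i) (pc i h l ⟨0, hn⟩) := by
    rw [deleteEdges_adj]
    exact ⟨by simp [gr_adj, adj], hl rfl⟩
  exact a1.reachable.trans (reach_hub hF i h l _)

theorem edgeConn {n : ℕ} (hn : 0 < n) : (gr n).IsEdgeConnected n := by
  intro x y F hF
  have key : ∀ z : Vert n, ((gr n).deleteEdges F).Reachable z (hub 0) := by
    intro z
    have hh : ∀ h : Fin 2, ((gr n).deleteEdges F).Reachable (hub h) (hub 0) := fun h =>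
      (reach_mid hn hF 0 h).symm.trans (reach_mid hn hF 0 0)
    cases z with
    | hub h => exact hh h
    | mid i => exact reach_mid hn hF i 0
    | pc i h j k => exact (reach_hub hF i h j k).trans (hh h)
  exact (key x).trans (key y).symm

/-- Deleting one vertex leaves a connected graph. -/
theorem vertexConn {n : ℕ} (hn : 2 ≤ n) (v : Vert n) : ((gr n).induce {v}ᶜ).Connected := by
  have h0 : 0 < n := by omega
  -- reachability avoiding `v`
  let R : Vert n → Vert n → Prop := fun x y => ∃ (hx : x ∈ ({v}ᶜ : Set (Vert n)))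
    (hy : y ∈ ({v}ᶜ : Set (Vert n))), ((gr n).induce {v}ᶜ).Reachable ⟨x, hx⟩ ⟨y, hy⟩
  have Radj : ∀ x y, x ≠ v → y ≠ v → adj x y → R x y := by
    intro x y hx hy h
    refine ⟨hx, hy, Adj.reachable ?_⟩
    simpa [gr_adj] using h
  have Rrefl : ∀ x, x ≠ v → R x x := fun x hx => ⟨hx, hx, Reachable.refl _⟩
  have Rsymm : ∀ x y, R x y → R y x := fun x y ⟨hx, hy, h⟩ => ⟨hy, hx, h.symm⟩
  have Rtrans : ∀ x y z, R x y → R y z → R x z :=
    fun x y z ⟨hx, hy, h⟩ ⟨_, hz, h'⟩ => ⟨hx, hz, h.trans h'⟩
  -- it is enough to reach a common root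
  have fin : ∀ r : Vert n, r ≠ v → (∀ z, z ≠ v → R z r) → ((gr n).induce {v}ᶜ).Connected := by
    intro r hr h
    rw [connected_iff_exists_forall_reachable]
    refine ⟨⟨r, hr⟩, ?_⟩
    rintro ⟨z, hz⟩
    obtain ⟨_, _, h'⟩ := h z hz
    exact h'.symm
  by_cases hv : ∃ h, v = hub h
  · obtain ⟨h, rfl⟩ := hv
    have hother : ∀ h' : Fin 2, h' ≠ h → h' = 1 - h := fin2_other h
    have hne : (1 - h : Fin 2) ≠ h := fin2_ne h
    have hne' : (hub (1 - h) : Vert n) ≠ hub h := by simpa using hne
    refine fin (hub (1 - h)) hne' ?_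
    have hmid : ∀ i, R (mid i) (hub (1 - h)) := by
      intro i
      refine Rtrans _ (pc i (1 - h) ⟨0, h0⟩ ⟨0, h0⟩) _ (Radj _ _ ?_ ?_ ?_) (Radj _ _ ?_ ?_ ?_)
      · simp
      · simp
      · simp [adj]
      · simp
      · exact hne'
      · simp [adj]
    intro z hz
    cases z with
    | hub h' =>
      have : h' = 1 - h := hother h' (by rintro rfl; exact hz rfl)
      subst this
      exact Rrefl _ hne'
    | mid i => exact hmid i
    | pc i h' j k =>
      by_cases hc : h' = h
      · subst hc
        have h1 : R (pc i h' j k) (pc i h' j ⟨0, h0⟩) := by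
          by_cases hk : k = ⟨0, h0⟩
          · subst hk; exact Rrefl _ (by simp)
          · exact Radj _ _ (by simp) (by simp) (by simp only [adj, true_and]; exact hk)
        have h2 : R (pc i h' j ⟨0, h0⟩) (mid i) := Radj _ _ (by simp) (by simp) (by simp [adj])
        exact Rtrans _ _ _ (Rtrans _ _ _ h1 h2) (hmid i)
      · have : h' = 1 - h := hother h' hc
        subst this
        exact Radj _ _ (by simp) hne' (by simp [adj])
  · push Not at hv
    have hv' : ∀ h, (hub h : Vert n) ≠ v := fun h hh => hv h hh.symm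
    -- a middle vertex whose whole group avoids `v`
    obtain ⟨i0, hi0, hi0'⟩ : ∃ i0 : Fin 3, (mid i0 : Vert n) ≠ v ∧
        ∀ h j k, (pc i0 h j k : Vert n) ≠ v := by
      cases v with
      | hub h => exact absurd rfl (hv h)
      | mid i => exact ⟨i + 1, by simp, by simp⟩
      | pc i h j k =>
        refine ⟨i + 1, by simp, ?_⟩
        intro h' j' k' hh
        injection hh with e
        exact absurd e (by simp)
    have hmid0 : ∀ h, R (mid i0) (hub h) := by
      intro h
      exact Rtrans _ (pc i0 h ⟨0, h0⟩ ⟨0, h0⟩) _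
        (Radj _ _ hi0 (hi0' _ _ _) (by simp [adj])) (Radj _ _ (hi0' _ _ _) (hv' h) (by simp [adj]))
    have hhub : ∀ h, R (hub h) (hub 0) := fun h =>
      Rtrans _ _ _ (Rsymm _ _ (hmid0 h)) (hmid0 0)
    refine fin (hub 0) (hv' 0) ?_
    intro z hz
    cases z with
    | hub h => exact hhub h
    | mid i =>
      -- choose a piece different from the one of `v`
      obtain ⟨j, hj⟩ : ∃ j : Fin n, (pc i 0 j ⟨0, h0⟩ : Vert n) ≠ v := by
        by_contra hcon
        push Not at hcon
        have e := (hcon ⟨0, h0⟩).trans (hcon ⟨1, by omega⟩).symm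
        injection e with _ _ e1
        simp at e1
      exact Rtrans _ _ _ (Radj _ _ hz hj (by simp [adj])) (Radj _ _ hj (hv' 0) (by simp [adj]))
    | pc i h j k =>
      exact Rtrans _ _ _ (Radj _ _ hz (hv' h) (by simp [adj])) (hhub h)

theorem noTriple {n : ℕ} (s t : Vert n) : ¬ HasTriple (gr n) s t := by
  rintro ⟨ord, I, O, hI, hO, -, -, hdisj, hup, hdown⟩
  -- a group avoiding `s` and `t`
  let grp : Vert n → Fin 3 → Prop := fun x i =>
    match x with
    | hub _ => False
    | mid i' => i' = i
    | pc i' _ _ _ => i' = i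
  have hgrp : ∀ x : Vert n, ∃ i0 : Fin 3, ∀ i, grp x i → i = i0 := by
    intro x
    cases x with
    | hub h => exact ⟨0, fun i hi => absurd hi (by simp [grp])⟩
    | mid i' => exact ⟨i', fun i hi => by simp only [grp] at hi; exact hi.symm⟩
    | pc i' h j k => exact ⟨i', fun i hi => by simp only [grp] at hi; exact hi.symm⟩
  obtain ⟨is, his⟩ := hgrp s
  obtain ⟨it, hit⟩ := hgrp t
  obtain ⟨i, hi1, hi2⟩ := fin3_avoid is it
  have hs : ∀ x : Vert n, grp x i → x ≠ s := by
    rintro x hx rfl; exact hi1 (his i hx)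
  have ht : ∀ x : Vert n, grp x i → x ≠ t := by
    rintro x hx rfl; exact hi2 (hit i hx)
  obtain ⟨w, hw, hwlt⟩ := hdown (mid i) (hs _ (by simp [grp]))
  have hwG := hO hw
  rw [gr_adj] at hwG
  cases w with
  | hub h => simp [adj] at hwG
  | mid i' => simp [adj] at hwG
  | pc i' h j k0 =>
  simp only [adj] at hwG
  obtain ⟨rfl, hk0⟩ := hwG
  -- smallest and largest vertex of the piece
  have hne : (Finset.univ : Finset (Fin n)).Nonempty := ⟨k0, Finset.mem_univ _⟩
  obtain ⟨kmin, -, hmin⟩ := Finset.exists_min_image Finset.univ (fun k => pc i h j k) hne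
  obtain ⟨kmax, -, hmax⟩ := Finset.exists_max_image Finset.univ (fun k => pc i h j k) hne
  obtain ⟨z', hz', hz'lt⟩ := hdown (pc i h j kmin) (hs _ (by simp [grp]))
  have hz'G := hO hz'
  rw [gr_adj] at hz'G
  have hb : hub h < pc i h j kmin := by
    cases z' with
    | hub h' =>
      simp only [adj] at hz'G
      subst hz'G
      exact hz'lt
    | mid i' =>
      simp only [adj] at hz'G
      obtain ⟨rfl, -⟩ := hz'G
      exact absurd (hz'lt.trans_le (hmin k0 (Finset.mem_univ _))) (not_lt.2 hwlt.le)
    | pc i' h' j' k' =>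
      simp only [adj] at hz'G
      obtain ⟨rfl, rfl, rfl, -⟩ := hz'G
      exact absurd hz'lt (not_lt.2 (hmin k' (Finset.mem_univ _)))
  obtain ⟨z, hz, hzlt⟩ := hup (pc i h j kmax) (ht _ (by simp [grp]))
  have hzG := hI hz
  rw [gr_adj] at hzG
  cases z with
  | hub h' =>
    simp only [adj] at hzG
    subst hzG
    exact absurd (hb.trans_le (hmin kmax (Finset.mem_univ _))) (not_lt.2 hzlt.le)
  | mid i' =>
    simp only [adj] at hzG
    obtain ⟨rfl, hk⟩ := hzG
    have : kmax = k0 := Fin.ext (by omega)
    subst this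
    exact Set.disjoint_left.1 hdisj ((mem_edgeSet I).2 hz) ((mem_edgeSet O).2 hw.symm)
  | pc i' h' j' k' =>
    simp only [adj] at hzG
    obtain ⟨rfl, rfl, rfl, -⟩ := hzG
    exact absurd hzlt (not_lt.2 (hmax k' (Finset.mem_univ _)))

/-- **Q1 of MP_bdb63f_co, negated form.** For every `L` there is a finite simple graph that is
2-connected and `L`-edge-connected and has no `(s,t)`-triple for any distinct `s`, `t`. -/
theorem result : ∀ L : ℕ, ∃ (V : Type) (_ : Fintype V) (G : SimpleGraph V),
    TwoConnected G ∧ G.IsEdgeConnected L ∧ ∀ s t : V, s ≠ t → ¬ HasTriple G s t := by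
  intro L
  have hn : 0 < L + 2 := by omega
  refine ⟨Vert (L + 2), inferInstance, gr (L + 2), ⟨?_, ?_, ?_⟩, ?_, fun s t _ => noTriple s t⟩
  · have h : (Finset.univ.map ⟨(mid : Fin 3 → Vert (L + 2)), fun a b h => by
        injection h⟩).card ≤ Fintype.card (Vert (L + 2)) := Finset.card_le_univ _
    simpa using h
  · have : Nonempty (Vert (L + 2)) := ⟨hub 0⟩
    exact (edgeConn hn).connected (by omega)
  · exact vertexConn (by omega)
  · intro x y F hF
    exact edgeConn hn x y (hF.trans_le (by exact_mod_cast (by omega : L ≤ L + 2)))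

end Pool.Agent.Results.MP_bdb63f_co.NoGoodOrientation
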